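import Pool.Agent.PP5LH.MnW

/-!
# PP5LH/CcW: THEOREM C, relative version

`ccA`: the weight `Θ` with (C1) verbatim as in `PP5C.cc`, and (C2'): for EVERY family `X` of mass `M` (`ClA T δ1 C0 M X`), `∑_{x ∈ X} Θ x ≤ C M`,
with `C` depending only on `δ, A, δ1, C0`.
-/

set_option autoImplicit false

namespace Pool.Agent.PP5LH

open Finset Pool.Agent.PPS Pool.Agent.PP5C

theorem cbw {δ1 C0 : ℝ} (hδ1 : 0 < δ1) (hC0 : 1 ≤ C0)
    (A c2 c4 c5 C C1 κ : ℝ) (hA : 0 < A) (hc2 : 0 < c2) (hc5 : 0 < c5) (hc4 : c4 ≤ c5 / 100)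
    (h25 : c2 + 9 * c5 ≤ δ1) (hC : 0 < C) (hC1 : 1 ≤ C1) (hκ : 0 ≤ κ) :
    ∃ C' T0 : ℝ, 0 < C' ∧ 2 ≤ T0 ∧ ∀ T : ℝ, T0 ≤ T → 2 ≤ T ^ c2 →
    ∀ (M : ℝ) (S : Finset (Fin 10 → ℤ)), 0 ≤ M → ClA T δ1 C0 M S →
    (∀ x ∈ S, DX x ≠ 0 ∧ (D2 x : ℝ) ≤ T ^ A) →
    ∑ x ∈ S, Tht T (T ^ c2) κ C C1 c4 c5 (D2 x) (vx x) (psx x) ≤ C' * M := by
  classical
  obtain ⟨Cm, Tm, hCm, hTm, hm⟩ := mnw (δ1 := δ1) hC0 A c2 c5 (8 * c5) C1 κ hA hc2 hc5
    (by linarith) (by linarith) hC1 hκ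
  obtain ⟨Tt, hTt, ht⟩ := tlw (δ1 := δ1) hC0 c2 c5 hc2 hc5 (by linarith)
  refine ⟨C * C0 + C * Cm + 1, max (max Tm Tt) 2, by positivity, le_max_right _ _, ?_⟩
  intro T hT h2 M S hM hcl hS
  have hTm' : Tm ≤ T := ((le_max_left _ _).trans (le_max_left _ _)).trans hT
  have hTt' : Tt ≤ T := ((le_max_right _ _).trans (le_max_left _ _)).trans hT
  have hT2 : 2 ≤ T := (le_max_right _ _).trans hT
  have hT0 : 0 < T := by linarith
  rw [← Finset.sum_filter_add_sum_filter_not S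
    (fun x => (VV (T ^ c2) (D2 x) (vx x) : ℝ) ≤ T ^ c5)]
  set S1 := S.filter (fun x => (VV (T ^ c2) (D2 x) (vx x) : ℝ) ≤ T ^ c5) with hS1
  set S2 := S.filter (fun x => ¬ (VV (T ^ c2) (D2 x) (vx x) : ℝ) ≤ T ^ c5) with hS2
  have hcl1 : ClA T δ1 C0 M S1 := hcl.mono (Finset.filter_subset _ _)
  have hcl2 : ClA T δ1 C0 M S2 := hcl.mono (Finset.filter_subset _ _)
  have e1 : ∑ x ∈ S1, Tht T (T ^ c2) κ C C1 c4 c5 (D2 x) (vx x) (psx x) =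
      C * (S1.card : ℝ) + C * ∑ x ∈ S1, gg (D2 x) * HH C1 (T ^ c2) (D2 x) (vx x) *
        Sg (T ^ c2) κ (psx x) (D2 x) := by
    rw [Finset.mul_sum, Finset.card_eq_sum_ones, Nat.cast_sum, Finset.mul_sum,
      ← Finset.sum_add_distrib]
    apply Finset.sum_congr rfl
    intro x hx
    have hx' := (Finset.mem_filter.mp hx).2
    unfold Tht
    rw [if_pos hx']
    push_cast
    ring
  have e2 : ∑ x ∈ S2, Tht T (T ^ c2) κ C C1 c4 c5 (D2 x) (vx x) (psx x) =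
      (S2.card : ℝ) * T ^ c4 := by
    rw [Finset.card_eq_sum_ones, Nat.cast_sum, Finset.sum_mul]
    apply Finset.sum_congr rfl
    intro x hx
    have hx' := (Finset.mem_filter.mp hx).2
    unfold Tht
    rw [if_neg hx']
    push_cast
    ring
  have b1 : (S1.card : ℝ) ≤ C0 * M := hcl1.card (by linarith) hδ1.le
  have b2 := hm T hTm' h2 M S1 hM hcl1 (by
    intro x hx
    exact ⟨hS x (Finset.mem_filter.mp hx).1, (Finset.mem_filter.mp hx).2⟩)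
  have b3 := ht T hTt' M S2 hM hcl2 (by
    intro x hx
    exact lt_of_not_ge (Finset.mem_filter.mp hx).2)
  have b4 : (S2.card : ℝ) * T ^ c4 ≤ M := by
    have h4 : T ^ (-(c5 / 10)) * T ^ c4 ≤ 1 := by
      rw [← Real.rpow_add hT0]
      apply Real.rpow_le_one_of_one_le_of_nonpos (by linarith)
      linarith
    calc (S2.card : ℝ) * T ^ c4 ≤ (M * T ^ (-(c5 / 10))) * T ^ c4 :=
          mul_le_mul_of_nonneg_right b3 (Real.rpow_nonneg hT0.le _)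
      _ = M * (T ^ (-(c5 / 10)) * T ^ c4) := by ring
      _ ≤ M * 1 := mul_le_mul_of_nonneg_left h4 hM
      _ = M := mul_one _
  rw [e1, e2]
  have c1 := mul_le_mul_of_nonneg_left b1 hC.le
  have c3 := mul_le_mul_of_nonneg_left b2 hC.le
  nlinarith

private theorem ccw_gg_nonneg (n : ℕ) : 0 ≤ gg n := by
  unfold gg
  refine Finset.prod_nonneg fun l hl => ?_
  have hp := Nat.prime_of_mem_primeFactors hl
  have h1 : (1 : ℝ) / (l : ℝ) ≤ 1 := by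
    have : (1 : ℝ) ≤ (l : ℝ) := by exact_mod_cast hp.one_lt.le
    rw [div_le_one (by linarith)]
    exact this
  exact inv_nonneg.mpr (by linarith)

private theorem ccw_hh_nonneg (C : ℝ) (hC : 0 ≤ C) (l v : ℕ) : 0 ≤ hh C l v := by
  unfold hh
  split_ifs
  · positivity
  · positivity

private theorem ccw_HH_nonneg (C z : ℝ) (hC : 0 ≤ C) (D : ℕ) (v : ℕ → ℕ) : 0 ≤ HH C z D v := by
  unfold HH
  refine Finset.prod_nonneg fun l _ => ?_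
  have := ccw_hh_nonneg C hC l (v l)
  linarith

private theorem ccw_Sg_nonneg (z κ : ℝ) (hz : 1 ≤ z) (ps : ℕ → ℝ) (hps : ∀ l, 0 ≤ ps l) (D : ℕ) :
    0 ≤ Sg z κ ps D := by
  unfold Sg
  refine Finset.sum_nonneg fun i _ => mul_nonneg (div_nonneg (by positivity) ?_)
    (Finset.sum_nonneg fun a _ => mul_nonneg (div_nonneg (by positivity) (by positivity))
      (Finset.prod_nonneg fun l _ => hps l))
  unfold ww
  rw [Real.log_exp]
  exact div_nonneg (Real.log_nonneg hz) (by positivity)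

private theorem ccw_psx (x : Fin 10 → ℤ) (l : ℕ) : 0 ≤ psx x l ∧ psx x l ≤ 2 := by
  unfold psx
  split_ifs <;> constructor <;> norm_num

private theorem ccw_ctx_ne (x : Fin 10 → ℤ) (hx : DX x ≠ 0) : ctx x ≠ 0 := by
  intro h
  apply hx
  unfold ctx at h
  rw [Finset.gcd_eq_zero_iff] at h
  have hadj : (SX x).adjugate = 0 := by
    ext i j
    have h1 := h (i, j) (Finset.mem_univ _)
    have h2 : 8 * (SX x).adjugate i j = 0 := Int.natAbs_eq_zero.mp h1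
    have h3 : (SX x).adjugate i j = 0 := by
      rcases mul_eq_zero.mp h2 with h | h
      · norm_num at h
      · exact h
    simpa using h3
  have h4 := Matrix.mul_adjugate (SX x)
  rw [hadj, Matrix.mul_zero] at h4
  have h5 := congrFun (congrFun h4 0) 0
  simp at h5
  exact h5.symm

private theorem ccw_frm (x : Fin 10 → ℤ) (hx : DX x ≠ 0) (c : Matrix (Fin 4) (Fin 4) ℤ)
    (h3 : ∀ l : ℕ, l.Prime → ¬ l ∣ D2 x → ¬ (l : ℤ) ∣ (c + c.transpose).det)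
    (h5 : ∀ n : ℕ, Cn n c → An n x) : Frm c (D2 x) (vx x) := by
  refine ⟨?_, ?_, h3, ?_⟩
  · unfold D2
    have : 0 < (DX x).natAbs := Int.natAbs_pos.mpr hx
    omega
  · exact Dvd.intro _ rfl
  · intro l hl hC
    have hA := h5 _ hC
    have hd : l ^ (vx x l + 1) ∣ ctx x := by
      unfold ctx
      refine Finset.dvd_gcd fun p _ => ?_
      have := hA p.1 p.2
      exact Int.natCast_dvd.mp this
    have h6 := (hl.pow_dvd_iff_le_factorization (ccw_ctx_ne x hx)).mp hd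
    unfold vx at h6
    omega

theorem ccA (δ A δ1 C0 : ℝ) (hδ : 0 < δ) (hA : 0 < A) (hδ1 : 0 < δ1) (hC0 : 1 ≤ C0) :
    ∃ c3 C T0 : ℝ, 0 < c3 ∧ 0 < C ∧ 2 ≤ T0 ∧ ∀ T : ℝ, T0 ≤ T →
    ∃ Θ : (Fin 10 → ℤ) → ℝ, (∀ x, 0 ≤ Θ x) ∧
    (∀ x : Fin 10 → ℤ, DX x ≠ 0 → (D2 x : ℝ) ≤ T ^ A → ∀ c : Matrix (Fin 4) (Fin 4) ℤ,
      (∀ l : ℕ, l.Prime → ¬ l ∣ D2 x → ¬ (l : ℤ) ∣ (c + c.transpose).det) →
      (∀ n : ℕ, Cn n c → An n x) →
      ∀ (A0 : Fin 4 → ℤ) (H : ℕ), T ^ δ ≤ (H : ℝ) →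
      ∀ (om : (Fin 4 → ℤ) → ℕ → ℝ) (ix : (Fin 4 → ℤ) → ℕ → ℕ) (S : Finset (Fin 4 → ℤ)),
      (∀ m ∈ S, m ∈ bx A0 (fun _ => H) ∧ Pm m ∧ qf c m ≠ 0 ∧ ((qf c m).natAbs : ℝ) ≤ T ^ A ∧
        Wgt (D2 x) (qf c m).natAbs (psx x) (om m) (ix m) ∧
        (sx (D2 x) (qf c m).natAbs (ix m) : ℝ) ≤ T ^ c3) →
      ∑ m ∈ S, ∏ l ∈ (qf c m).natAbs.primeFactors, om m l ≤ (H : ℝ) ^ 4 * Θ x) ∧
    (∀ (M : ℝ) (X : Finset (Fin 10 → ℤ)), 0 ≤ M → ClA T δ1 C0 M X →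
      (∀ x ∈ X, DX x ≠ 0 ∧ (D2 x : ℝ) ≤ T ^ A) → ∑ x ∈ X, Θ x ≤ C * M) := by
  obtain ⟨c2, c3, c4, c5, C, C1, κ, T2, hc2, hc2η, hc3, hc4, hc45, hc5, hc5η, hC, hC1, hκ, hT2, hca⟩ :=
    ca δ A (δ1 / 10) hδ hA (by positivity)
  obtain ⟨C', T3, hC', hT3, hcb⟩ := cbw hδ1 hC0 A c2 c4 c5 C C1 κ hA hc2 hc5 hc45
    (by linarith) hC hC1 hκ
  refine ⟨c3, C', max T2 T3, hc3, hC', le_max_of_le_left hT2, fun T hT => ?_⟩
  have hTT2 : T2 ≤ T := le_trans (le_max_left _ _) hT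
  have hTT3 : T3 ≤ T := le_trans (le_max_right _ _) hT
  obtain ⟨h4, hca2⟩ := hca T hTT2
  refine ⟨fun x => Tht T (T ^ c2) κ C C1 c4 c5 (D2 x) (vx x) (psx x), ?_, ?_, ?_⟩
  · intro x
    show 0 ≤ Tht T (T ^ c2) κ C C1 c4 c5 (D2 x) (vx x) (psx x)
    unfold Tht
    split_ifs
    · refine mul_nonneg hC.le ?_
      have h1 := ccw_gg_nonneg (D2 x)
      have h2 := ccw_HH_nonneg C1 (T ^ c2) (by linarith) (D2 x) (vx x)
      have h3 := ccw_Sg_nonneg (T ^ c2) κ (by linarith) (psx x) (fun l => (ccw_psx x l).1) (D2 x)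
      have h5 := mul_nonneg (mul_nonneg h1 h2) h3
      linarith
    · have : (0 : ℝ) ≤ T := by linarith
      exact Real.rpow_nonneg this _
  · intro x hx hD c h3 h5 A0 H hH om ix S hS
    exact hca2 c (D2 x) (vx x) (ccw_frm x hx c h3 h5) hD A0 H hH (psx x) (ccw_psx x) om ix S hS
  · intro M X hM hcl hX
    exact hcb T hTT3 (by linarith) M X hM hcl hX

end Pool.Agent.PP5LH
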