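import Pool.Agent.PP5LH.ClA

/-!
# PP5LH/ClG: a family of points in one residue class modulo `W`, with an upper bound for the classes modulo `n`,
`(n, W) = 1`, satisfies `ClA`

`FamG W c`: `W` even, `D(c)` odd and a non-residue modulo all odd primes dividing `W`.
The constant `C0` depends only on `B`.
-/

set_option autoImplicit false

namespace Pool.Agent.PP5LH

open Finset Pool.Agent.PPS Pool.Agent.PP5C

/-- the residue classes modulo `W` -/
structure FamG (W : ℕ) (c : Fin 10 → ℤ) : Prop where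
  pos : 1 ≤ W
  two : 2 ∣ W
  odd : ¬ (2 : ℤ) ∣ DX c
  ns : ∀ l : ℕ, l.Prime → l ∣ W → l ≠ 2 → ¬ IsSquare ((DX c : ℤ) : ZMod l)

private theorem clg_cast {n : ℕ} {x y : Fin 10 → ℤ} (h : Cg n x y) (i : Fin 10) :
    ((x i : ℤ) : ZMod n) = ((y i : ℤ) : ZMod n) := by
  rw [eq_comm, ZMod.intCast_eq_intCast_iff_dvd_sub]
  exact h i

private theorem clg_symm {n : ℕ} {x y : Fin 10 → ℤ} (h : Cg n x y) : Cg n y x := by
  intro i
  rw [← neg_sub]
  exact (h i).neg_right

private theorem clg_dvd {n m : ℕ} (hm : m ∣ n) {x y : Fin 10 → ℤ} (h : Cg n x y) : Cg m x y :=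
  fun i => (Int.natCast_dvd_natCast.mpr hm).trans (h i)

private theorem clg_map {n : ℕ} {x y : Fin 10 → ℤ} (h : Cg n x y) :
    (Int.castRingHom (ZMod n)).mapMatrix (SX x) = (Int.castRingHom (ZMod n)).mapMatrix (SX y) := by
  ext i j
  fin_cases i <;> fin_cases j <;> simp [SX, clg_cast h]

private theorem clg_DX {n : ℕ} {x y : Fin 10 → ℤ} (h : Cg n x y) :
    ((DX x : ℤ) : ZMod n) = ((DX y : ℤ) : ZMod n) := by
  have h1 := congrArg Matrix.det (clg_map h)
  rw [← RingHom.map_det, ← RingHom.map_det] at h1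
  exact h1

private theorem clg_adj {n : ℕ} {x y : Fin 10 → ℤ} (h : Cg n x y) (i j : Fin 4) :
    (((SX x).adjugate i j : ℤ) : ZMod n) = (((SX y).adjugate i j : ℤ) : ZMod n) := by
  have h1 := congrArg Matrix.adjugate (clg_map h)
  rw [← RingHom.map_adjugate, ← RingHom.map_adjugate] at h1
  exact congrFun (congrFun h1 i) j

private theorem clg_FX {n : ℕ} {x y : Fin 10 → ℤ} (h : Cg n x y) :
    ((FX x : ℤ) : ZMod n) = ((FX y : ℤ) : ZMod n) := by
  simp only [FX]
  push_cast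
  simp only [clg_cast h]

private theorem clg_D2 (n : ℕ) (x : Fin 10 → ℤ) : n ∣ D2 x ↔ (n : ℤ) ∣ 2 * DX x := by
  rw [Int.natCast_dvd, Int.natAbs_mul]
  rfl

private theorem clg_D2p {n : ℕ} {x y : Fin 10 → ℤ} (h : Cg n x y) (hx : n ∣ D2 x) : n ∣ D2 y := by
  rw [clg_D2, ← ZMod.intCast_zmod_eq_zero_iff_dvd] at hx ⊢
  push_cast at hx ⊢
  rw [← clg_DX h]
  exact hx

private theorem clg_An {n : ℕ} {x y : Fin 10 → ℤ} (h : Cg n x y) (hx : An n x) : An n y := by
  intro i j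
  have := hx i j
  rw [← ZMod.intCast_zmod_eq_zero_iff_dvd] at this ⊢
  push_cast at this ⊢
  rw [← clg_adj h]
  exact this

private theorem clg_cop {a : ℕ} {x y : Fin 10 → ℤ} (h : Cg a x y) (hx : Nat.Coprime a (D2 x)) :
    Nat.Coprime a (D2 y) := by
  have h1 : Nat.gcd a (D2 y) ∣ a := Nat.gcd_dvd_left _ _
  have h2 : Nat.gcd a (D2 y) ∣ D2 x := clg_D2p (clg_symm (clg_dvd h1 h)) (Nat.gcd_dvd_right _ _)
  have h3 := Nat.dvd_gcd h1 h2
  rw [hx] at h3
  exact Nat.dvd_one.mp h3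

private theorem clg_psx {l : ℕ} {x y : Fin 10 → ℤ} (h : Cg l x y) : psx x l = psx y l := by
  unfold psx
  rw [clg_DX h]

private theorem clg_psx0 (x : Fin 10 → ℤ) (l : ℕ) : 0 ≤ psx x l := by
  unfold psx
  split_ifs <;> norm_num

private theorem clg_pr {n0 n1 a : ℕ} {x : Fin 10 → ℤ} (h0 : n0 ∣ D2 x) (h1 : An n1 x)
    (h2 : Nat.Coprime a (D2 x)) : Nat.Coprime n0 a ∧ Nat.Coprime n1 a := by
  refine ⟨(h2.coprime_dvd_right h0).symm, ?_⟩
  refine Nat.Coprime.symm (Nat.coprime_of_dvd fun l hl hla hl1 => ?_)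
  have h3 : (l : ℤ) ∣ 8 * DX x := by
    have h4 : (SX x * (SX x).adjugate) 0 0 = DX x := by
      rw [Matrix.mul_adjugate, Matrix.smul_apply, Matrix.one_apply_eq, smul_eq_mul, mul_one]
      rfl
    rw [Matrix.mul_apply] at h4
    rw [← h4, mul_sum]
    refine dvd_sum fun k _ => ?_
    have h5 : 8 * (SX x 0 k * (SX x).adjugate k 0) = SX x 0 k * (8 * (SX x).adjugate k 0) := by ring
    rw [h5]
    exact ((Int.natCast_dvd_natCast.mpr hl1).trans (h1 k 0)).mul_left _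
  have h4 : (l : ℤ) ∣ 2 * DX x := by
    have h5 : (8 : ℤ) * DX x = 2 * (2 * (2 * DX x)) := by ring
    rw [h5] at h3
    have hp : Prime (l : ℤ) := Nat.prime_iff_prime_int.mp hl
    rcases hp.dvd_or_dvd h3 with h | h
    · exact h.mul_right _
    · rcases hp.dvd_or_dvd h with h | h
      · exact h.mul_right _
      · exact h
  have h5 := Nat.dvd_gcd hla ((clg_D2 l x).mpr h4)
  rw [h2] at h5
  exact hl.one_lt.ne' (Nat.dvd_one.mp h5)

private theorem clg_r0n {C : ℝ} (hC : 0 ≤ C) (n : ℕ) : 0 ≤ r0 C n := by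
  unfold r0
  exact prod_nonneg fun l _ => by positivity

private theorem clg_r0 {C C' : ℝ} (hC : 0 ≤ C) (h : C ≤ C') (n : ℕ) : r0 C n ≤ r0 C' n := by
  unfold r0
  refine prod_le_prod (fun l _ => by positivity) fun l _ => ?_
  gcongr

private theorem clg_r1n {C : ℝ} (hC : 0 ≤ C) (n : ℕ) : 0 ≤ r1 C n := by
  unfold r1 rk
  exact prod_nonneg fun l _ => by positivity

private theorem clg_r1 {C C' : ℝ} (hC : 0 ≤ C) (h : C ≤ C') (n : ℕ) : r1 C n ≤ r1 C' n := by
  unfold r1 rk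
  refine prod_le_prod (fun l _ => by positivity) fun l _ => ?_
  gcongr

private theorem clg_ran {C : ℝ} (hC : 0 ≤ C) (n : ℕ) : 0 ≤ ra C n := by
  unfold ra
  exact prod_nonneg fun l _ => by positivity

private theorem clg_ra {C C' : ℝ} (hC : 0 ≤ C) (h : C ≤ C') (n : ℕ) : ra C n ≤ ra C' n := by
  unfold ra
  refine prod_le_prod (fun l _ => by positivity) fun l _ => ?_
  gcongr


private theorem clg_D_of_An {n : ℕ} {x : Fin 10 → ℤ} (h1 : An n x) : (n : ℤ) ∣ 8 * DX x := by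
  have h4 : (SX x * (SX x).adjugate) 0 0 = DX x := by
    rw [Matrix.mul_adjugate, Matrix.smul_apply, Matrix.one_apply_eq, smul_eq_mul, mul_one]
    rfl
  rw [Matrix.mul_apply] at h4
  rw [← h4, mul_sum]
  refine dvd_sum fun k _ => ?_
  have h5 : 8 * (SX x 0 k * (SX x).adjugate k 0) = SX x 0 k * (8 * (SX x).adjugate k 0) := by ring
  rw [h5]
  exact (h1 k 0).mul_left _

/-- the primes of `W` do not divide `D(x)` -/
private theorem clg_nd {W : ℕ} {c x : Fin 10 → ℤ} (hF : FamG W c) (hx : Cg W x c)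
    {l : ℕ} (hl : l.Prime) (hlW : l ∣ W) : ¬ (l : ℤ) ∣ DX x := by
  intro h
  have h1 : ((DX c : ℤ) : ZMod l) = 0 := by
    rw [← clg_DX (clg_dvd hlW hx), ZMod.intCast_zmod_eq_zero_iff_dvd]
    exact h
  by_cases h2 : l = 2
  · subst h2
    exact hF.odd ((ZMod.intCast_zmod_eq_zero_iff_dvd _ _).1 h1)
  · exact hF.ns l hl hlW h2 (by rw [h1]; exact IsSquare.zero)


private theorem clg_phi (n : ℕ) (hn : n ≠ 0) :
    (n : ℝ) = (Nat.totient n : ℝ) * ∏ l ∈ n.primeFactors, (1 - 1 / (l : ℝ))⁻¹ := by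
  have h1 := Nat.totient_eq_mul_prod_factors n
  have h2 : ((Nat.totient n : ℕ) : ℝ) = n * ∏ l ∈ n.primeFactors, (1 - 1 / (l : ℝ)) := by
    have h3 : (((Nat.totient n : ℕ) : ℚ) : ℝ) = (((n : ℚ) * ∏ p ∈ n.primeFactors, (1 - (p : ℚ)⁻¹) : ℚ) : ℝ) := by
      rw [h1]
    push_cast at h3
    rw [h3]
    congr 1
    refine Finset.prod_congr rfl fun l _ => ?_
    rw [one_div]
  rw [h2, mul_assoc, ← Finset.prod_mul_distrib]
  have h4 : ∏ l ∈ n.primeFactors, ((1 - 1 / (l : ℝ)) * (1 - 1 / (l : ℝ))⁻¹) = 1 := by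
    refine Finset.prod_eq_one fun l hl => ?_
    have h5 : (2 : ℝ) ≤ l := by exact_mod_cast (Nat.prime_of_mem_primeFactors hl).two_le
    have h6 : 1 / (l : ℝ) ≤ 1 / 2 := one_div_le_one_div_of_le (by norm_num) h5
    exact mul_inv_cancel₀ (by linarith)
  rw [h4, mul_one]

private noncomputable def gn (n : ℕ) : ℝ := ∏ l ∈ n.primeFactors, (1 - 1 / (l : ℝ))⁻¹

private theorem clg_one {l : ℕ} (hl : l.Prime) : (1 - 1 / (l : ℝ))⁻¹ ≤ 1 + 2 / l ∧
    0 ≤ (1 - 1 / (l : ℝ))⁻¹ ∧ (1 - 1 / (l : ℝ))⁻¹ ≤ 2 := by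
  have h5 : (2 : ℝ) ≤ l := by exact_mod_cast hl.two_le
  have h0 : (0 : ℝ) < l := by linarith
  have h6 : 1 / (l : ℝ) ≤ 1 / 2 := one_div_le_one_div_of_le (by norm_num) h5
  have h7 : (0 : ℝ) < 1 / l := by positivity
  have h8 : 0 < 1 - 1 / (l : ℝ) := by linarith
  refine ⟨?_, (inv_pos.2 h8).le, ?_⟩
  · rw [inv_le_iff_one_le_mul₀ h8]
    have : (1 + 2 / (l : ℝ)) * (1 - 1 / l) = 1 + (1 / l) * (1 - 2 * (1 / l)) := by
      field_simp
      ring
    rw [this]
    nlinarith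
  · rw [inv_le_iff_one_le_mul₀ h8]
    linarith

private theorem clg_gn0 (n : ℕ) : 0 ≤ gn n :=
  Finset.prod_nonneg fun l hl => (clg_one (Nat.prime_of_mem_primeFactors hl)).2.1

private theorem clg_gmul {m n : ℕ} (h : Nat.Coprime m n) : gn (m * n) = gn m * gn n := by
  unfold gn
  rw [h.primeFactors_mul, Finset.prod_union h.disjoint_primeFactors]

private theorem clg_g0 {C : ℝ} (hC : 1 ≤ C) (n : ℕ) : gn n * r0 C n ≤ r0 (2 * C + 2) n := by
  unfold gn r0
  rw [← Finset.prod_mul_distrib]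
  refine Finset.prod_le_prod (fun l hl => ?_) fun l hl => ?_
  · have := (clg_one (Nat.prime_of_mem_primeFactors hl)).2.1
    positivity
  · have h1 := (clg_one (Nat.prime_of_mem_primeFactors hl)).2.2
    have h2 : 0 ≤ C / (l : ℝ) := by positivity
    calc (1 - 1 / (l : ℝ))⁻¹ * (C / l) ≤ 2 * (C / l) := mul_le_mul_of_nonneg_right h1 h2
      _ = (2 * C) / l := by ring
      _ ≤ _ := by gcongr; linarith

private theorem clg_g1 {C : ℝ} (hC : 1 ≤ C) (n : ℕ) : gn n * r1 C n ≤ r1 (2 * C + 2) n := by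
  unfold gn r1
  rw [← Finset.prod_mul_distrib]
  have hk : ∀ l : ℕ, 0 ≤ rk C l (n.factorization l) := fun l => by unfold rk; positivity
  refine Finset.prod_le_prod (fun l hl => ?_) fun l hl => ?_
  · exact mul_nonneg (clg_one (Nat.prime_of_mem_primeFactors hl)).2.1 (hk l)
  · have h1 := (clg_one (Nat.prime_of_mem_primeFactors hl)).2.2
    refine (mul_le_mul_of_nonneg_right h1 (hk l)).trans ?_
    unfold rk
    rw [show 2 * (C * ((n.factorization l : ℝ) + 1) ^ 2 * (l : ℝ) ^ (7 * n.factorization l +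
      3 * n.factorization l / 4) / (l : ℝ) ^ (9 * n.factorization l)) =
      (2 * C) * ((n.factorization l : ℝ) + 1) ^ 2 * (l : ℝ) ^ (7 * n.factorization l +
      3 * n.factorization l / 4) / (l : ℝ) ^ (9 * n.factorization l) by ring]
    gcongr
    linarith

private theorem clg_ga {C : ℝ} (hC : 1 ≤ C) (n : ℕ) : gn n * ra C n ≤ ra (2 * C + 2) n := by
  unfold gn ra
  rw [← Finset.prod_mul_distrib]
  refine Finset.prod_le_prod (fun l hl => ?_) fun l hl => ?_
  · have := (clg_one (Nat.prime_of_mem_primeFactors hl)).2.1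
    positivity
  · have hl2 : (2 : ℝ) ≤ l := by exact_mod_cast (Nat.prime_of_mem_primeFactors hl).two_le
    have h0 : (0 : ℝ) < l := by linarith
    have h1 := (clg_one (Nat.prime_of_mem_primeFactors hl)).1
    have h2 : 0 ≤ 1 + C / (l : ℝ) := by positivity
    refine (mul_le_mul_of_nonneg_right h1 h2).trans ?_
    have h3 : 2 / (l : ℝ) ≤ 1 := (div_le_one h0).2 hl2
    have h4 : (1 + 2 / (l : ℝ)) * (1 + C / l) = 1 + (C + 2) / l + (2 / l) * (C / l) := by
      field_simp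
      ring
    rw [h4]
    have h5 : (2 / (l : ℝ)) * (C / l) ≤ 1 * (C / l) :=
      mul_le_mul_of_nonneg_right h3 (by positivity)
    have h6 : 1 + (2 * C + 2) / (l : ℝ) = 1 + (C + 2) / l + C / l := by ring
    rw [h6]
    linarith

private theorem clg_alg (B M φ n G0 G1 G2 r0 r1 ra : ℝ) (hφ : φ ≠ 0) (hn : n ≠ 0) :
    B * (M / (φ * n ^ 8)) * ((n ^ 8 * (φ * (G0 * G1 * G2))) * (r0 * r1 * ra)) =
      B * M * ((G0 * r0) * (G1 * r1) * (G2 * ra)) := by
  field_simp

/-- **Families with an upper bound for the residue classes.** -/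
theorem clG (B : ℝ) (hB : 1 ≤ B) : ∃ C0 : ℝ, 1 ≤ C0 ∧
    ∀ (W : ℕ) (c : Fin 10 → ℤ) (j : Fin 10), FamG W c → ∀ T δ1 M : ℝ, 1 ≤ T → 0 ≤ M →
    ∀ S : Finset (Fin 10 → ℤ), (∀ x ∈ S, FX x = 0 ∧ Pm x ∧ Cg W x c) →
    (∀ (n : ℕ) (y : Fin 10 → ℤ), 1 ≤ n → Nat.Coprime n W → (n : ℝ) ≤ T ^ δ1 →
      ∀ S' : Finset (Fin 10 → ℤ), S' ⊆ S → (∀ x ∈ S', Cg n x y) →
      (S'.card : ℝ) ≤ B * (M / ((Nat.totient n : ℝ) * (n : ℝ) ^ 8)) * (s1 (gx n j y) : ℝ)) →
    ClA T δ1 C0 M S := by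
  classical
  obtain ⟨Cf, hCf, hf⟩ := fcx
  refine ⟨B * (2 * Cf + 2), by nlinarith, ?_⟩
  intro W c j hF T δ1 M hT1 hM S hS hcnt
  have hT2 : (0 : ℝ) < T := by linarith
  have hCf0 : (0 : ℝ) ≤ Cf := by linarith
  have hKdef : ∃ K : ℝ, K = B * (2 * Cf + 2) := ⟨_, rfl⟩
  obtain ⟨K, hK⟩ := hKdef
  rw [← hK]
  have hK2 : 2 * Cf + 2 ≤ K := by rw [hK]; nlinarith
  have hKB : B ≤ K := by rw [hK]; nlinarith
  have hK0 : (0 : ℝ) ≤ K := by linarith
  have hK1 : (1 : ℝ) ≤ K := by linarith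
  intro n0 n1 a hn0 hn1 ha h01 hnT
  have hRHS : 0 ≤ K * M * (r0 K n0 * r1 K n1 * ra K a) := by
    have := clg_r0n hK0 n0
    have := clg_r1n hK0 n1
    have := clg_ran hK0 a
    positivity
  set S' := S.filter (fun x => n0 ∣ D2 x ∧ An n1 x ∧ Nat.Coprime a (D2 x)) with hS'
  rcases S'.eq_empty_or_nonempty with hemp | ⟨xs, hxs⟩
  · rw [hemp, sum_empty]
    exact hRHS
  by_cases haW : Nat.Coprime a W
  swap
  · -- a common prime of `a` and `W`
    obtain ⟨l, hl, hla, hlW⟩ := Nat.Prime.not_coprime_iff_dvd.1 haW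
    have h2 : l ≠ 2 := by
      rintro rfl
      rw [hS', mem_filter] at hxs
      have h3 : 2 ∣ D2 xs := Dvd.intro _ rfl
      have h4 := Nat.dvd_gcd hla h3
      rw [hxs.2.2.2] at h4
      omega
    have hz : ∀ x ∈ S', ∏ l ∈ a.primeFactors, psx x l = 0 := by
      intro x hx
      rw [hS', mem_filter] at hx
      refine Finset.prod_eq_zero (i := l) (Nat.mem_primeFactors.2 ⟨hl, hla, ha.ne_zero⟩) ?_
      have hcg := (hS x hx.1).2.2
      unfold psx
      rw [if_neg]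
      rw [clg_DX (clg_dvd hlW hcg)]
      exact hF.ns l hl hlW h2
    rw [Finset.sum_eq_zero hz]
    exact hRHS
  -- the parts prime to `W`
  obtain ⟨m0, hm0sq, hm0d, hm0W, hm0r⟩ : ∃ m0 : ℕ, Squarefree m0 ∧ m0 ∣ n0 ∧ Nat.Coprime m0 W ∧
      r0 K m0 ≤ r0 K n0 := by
    rw [hS', mem_filter] at hxs
    obtain ⟨hxS, h0, h1, h2⟩ := hxs
    have hcg := (hS xs hxS).2.2
    have hgen : ∀ l : ℕ, l.Prime → l ∣ n0 → l ∣ W → l = 2 := by
      intro l hl hl0 hlW
      have h3 : (l : ℤ) ∣ 2 * DX xs := (clg_D2 l xs).1 (hl0.trans h0)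
      have hp : Prime (l : ℤ) := Nat.prime_iff_prime_int.mp hl
      rcases hp.dvd_or_dvd h3 with h | h
      · have : l ∣ 2 := by exact_mod_cast h
        exact (Nat.prime_dvd_prime_iff_eq hl Nat.prime_two).1 this
      · exact absurd h (clg_nd hF hcg hl hlW)
    by_cases h2n : 2 ∣ n0
    · obtain ⟨m, hm⟩ := h2n
      have hsq : Squarefree m := hn0.squarefree_of_dvd ⟨2, by rw [hm]; ring⟩
      have hcop : Nat.Coprime 2 m := by
        rw [hm] at hn0
        exact Nat.coprime_of_squarefree_mul hn0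
      refine ⟨m, hsq, ⟨2, by rw [hm]; ring⟩, ?_, ?_⟩
      · refine Nat.coprime_of_dvd fun l hl hlm hlW => ?_
        have h3 := hgen l hl (hlm.trans ⟨2, by rw [hm]; ring⟩) hlW
        subst h3
        have h4 := Nat.dvd_gcd (dvd_refl 2) hlm
        rw [hcop] at h4
        omega
      · have h3 : r0 K n0 = r0 K 2 * r0 K m := by
          unfold r0
          rw [hm, hcop.primeFactors_mul, Finset.prod_union hcop.disjoint_primeFactors]
        rw [h3]
        have h4 : r0 K 2 = K / 2 := by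
          unfold r0
          rw [Nat.Prime.primeFactors Nat.prime_two, Finset.prod_singleton]
          norm_num
        rw [h4]
        have h5 := clg_r0n hK0 m
        nlinarith
    · refine ⟨n0, hn0, dvd_rfl, ?_, le_rfl⟩
      refine Nat.coprime_of_dvd fun l hl hlm hlW => ?_
      have h3 := hgen l hl hlm hlW
      subst h3
      exact h2n hlm
  obtain ⟨m1, hm1ne, hm1d, hm1W, hm1r⟩ : ∃ m1 : ℕ, m1 ≠ 0 ∧ m1 ∣ n1 ∧ Nat.Coprime m1 W ∧
      r1 K m1 ≤ r1 K n1 := by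
    rw [hS', mem_filter] at hxs
    obtain ⟨hxS, h0, h1, h2⟩ := hxs
    have hcg := (hS xs hxS).2.2
    have hgen : ∀ l : ℕ, l.Prime → l ∣ n1 → l ∣ W → l = 2 := by
      intro l hl hl0 hlW
      have hA : An l xs := fun i k => (Int.natCast_dvd_natCast.mpr hl0).trans (h1 i k)
      have h3 : (l : ℤ) ∣ 8 * DX xs := clg_D_of_An hA
      have hp : Prime (l : ℤ) := Nat.prime_iff_prime_int.mp hl
      rcases hp.dvd_or_dvd h3 with h | h
      · have h4 : l ∣ 2 ^ 3 := by exact_mod_cast h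
        exact (Nat.prime_dvd_prime_iff_eq hl Nat.prime_two).1 (hl.dvd_of_dvd_pow h4)
      · exact absurd h (clg_nd hF hcg hl hlW)
    -- the exponent of `2` is at most `3`
    obtain ⟨e, m, hm2, hm⟩ := Nat.exists_eq_pow_mul_and_not_dvd hn1 2 (by norm_num)
    have he3 : e ≤ 3 := by
      by_contra hcon
      push Not at hcon
      have h3 : (2 : ℕ) ^ 4 ∣ n1 := (pow_dvd_pow 2 hcon).trans ⟨m, hm⟩
      have h4 : An 16 xs := fun i k =>
        (Int.natCast_dvd_natCast.mpr (by simpa using h3)).trans (h1 i k)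
      have h5 : (((16 : ℕ)) : ℤ) ∣ 8 * DX xs := clg_D_of_An h4
      have h6 : ¬ (2 : ℤ) ∣ DX xs := by
        have := clg_nd hF hcg Nat.prime_two hF.two
        exact_mod_cast this
      push_cast at h5
      omega
    have hmne : m ≠ 0 := by
      rintro rfl
      exact hm2 (dvd_zero 2)
    refine ⟨m, hmne, ⟨2 ^ e, by rw [hm]; ring⟩, ?_, ?_⟩
    · refine Nat.coprime_of_dvd fun l hl hlm hlW => ?_
      have h3 := hgen l hl (hlm.trans ⟨2 ^ e, by rw [hm]; ring⟩) hlW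
      subst h3
      exact hm2 hlm
    · rcases Nat.eq_zero_or_pos e with h0e | hep
      · rw [hm, h0e, pow_zero, one_mul]
      · have hcop : Nat.Coprime (2 ^ e) m :=
          Nat.Coprime.pow_left _ ((Nat.prime_two.coprime_iff_not_dvd).2 hm2)
        have h3 : r1 K n1 = rk K 2 e * r1 K m := by
          unfold r1
          rw [hm, hcop.primeFactors_mul, Finset.prod_union hcop.disjoint_primeFactors,
            Nat.primeFactors_prime_pow (by omega) Nat.prime_two, Finset.prod_singleton,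
            Nat.factorization_mul (by positivity) hmne]
          congr 1
          · simp [Nat.Prime.factorization_pow Nat.prime_two, Nat.factorization_eq_zero_of_not_dvd hm2]
          · refine Finset.prod_congr rfl fun l hl => ?_
            have hl2 : l ≠ 2 := by
              rintro rfl
              exact hm2 (Nat.dvd_of_mem_primeFactors hl)
            congr 1
            simp [Nat.Prime.factorization_pow Nat.prime_two, Finsupp.single_apply, Ne.symm hl2]
        have h4 : 1 ≤ rk K 2 e := by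
          unfold rk
          interval_cases e <;> norm_num <;> linarith
        rw [h3]
        have h5 := clg_r1n hK0 m
        nlinarith
  have hm01 : Nat.Coprime m0 m1 := (h01.coprime_dvd_left hm0d).coprime_dvd_right hm1d
  -- the sum with the conditions `m0, m1, a`
  suffices hmain : ∑ x ∈ S.filter (fun x => m0 ∣ D2 x ∧ An m1 x ∧ Nat.Coprime a (D2 x)),
      ∏ l ∈ a.primeFactors, psx x l ≤
      K * M * (r0 K m0 * r1 K m1 * ra K a) by
    have h1 : ∑ x ∈ S', ∏ l ∈ a.primeFactors, psx x l ≤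
        ∑ x ∈ S.filter (fun x => m0 ∣ D2 x ∧ An m1 x ∧ Nat.Coprime a (D2 x)),
          ∏ l ∈ a.primeFactors, psx x l := by
      refine Finset.sum_le_sum_of_subset_of_nonneg ?_
        (fun x _ _ => Finset.prod_nonneg fun l _ => clg_psx0 x l)
      intro x hx
      rw [hS', mem_filter] at hx
      rw [mem_filter]
      exact ⟨hx.1, hm0d.trans hx.2.1,
        fun i k => (Int.natCast_dvd_natCast.mpr hm1d).trans (hx.2.2.1 i k), hx.2.2.2⟩
    refine h1.trans (hmain.trans ?_)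
    have g0 := clg_r0n hK0 m0
    have g1 := clg_r1n hK0 m1
    have ga := clg_ran hK0 a
    have k1 := clg_r1n hK0 n1
    have k0 := clg_r0n hK0 n0
    exact mul_le_mul_of_nonneg_left (mul_le_mul_of_nonneg_right
      (mul_le_mul hm0r hm1r g1 k0) ga) (by positivity)
  have hnT' : ((m0 * m1 * a : ℕ) : ℝ) ≤ T ^ δ1 := by
    refine le_trans ?_ hnT
    have : m0 * m1 * a ≤ n0 * n1 * a :=
      Nat.mul_le_mul_right _ (Nat.mul_le_mul (Nat.le_of_dvd (Nat.pos_of_ne_zero hn0.ne_zero) hm0d)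
        (Nat.le_of_dvd (Nat.pos_of_ne_zero hn1) hm1d))
    exact_mod_cast this
  clear hm0r hm1r hm0d hm1d hxs hS' S' hnT hRHS h01 hn0 hn1
  set S' := S.filter (fun x => m0 ∣ D2 x ∧ An m1 x ∧ Nat.Coprime a (D2 x)) with hS'
  have hRHS : 0 ≤ K * M * (r0 K m0 * r1 K m1 * ra K a) := by
    have := clg_r0n hK0 m0
    have := clg_r1n hK0 m1
    have := clg_ran hK0 a
    positivity
  by_cases hcop : Nat.Coprime m0 a ∧ Nat.Coprime m1 a
  swap
  · have : S' = ∅ := by
      rw [hS', filter_eq_empty_iff]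
      rintro x - ⟨h0, h1, h2⟩
      exact hcop (clg_pr h0 h1 h2)
    rw [this, sum_empty]
    exact hRHS
  obtain ⟨hc0, hc1⟩ := hcop
  have hn : 1 ≤ m0 * m1 * a :=
    Nat.one_le_iff_ne_zero.mpr (mul_ne_zero (mul_ne_zero hm0sq.ne_zero hm1ne) ha.ne_zero)
  have hnW : Nat.Coprime (m0 * m1 * a) W := Nat.Coprime.mul_left (Nat.Coprime.mul_left hm0W hm1W) haW
  have hgmul : gn (m0 * m1 * a) = gn m0 * gn m1 * gn a := by
    rw [clg_gmul (Nat.Coprime.mul_left hc0 hc1), clg_gmul hm01]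
  set n := m0 * m1 * a with hndef
  have hnZ : (0 : ℤ) < (n : ℤ) := by exact_mod_cast hn
  have hnR : (0 : ℝ) < (n : ℝ) := by exact_mod_cast hn
  set red : (Fin 10 → ℤ) → (Fin 10 → ℤ) := fun x i => x i % (n : ℤ) with hred
  have hcg : ∀ x, Cg n x (red x) := by
    intro x i
    exact Int.dvd_self_sub_emod
  set U := (cub (Fin 10) n).filter (fun x => (n : ℤ) ∣ FX x ∧
        (∀ l ∈ n.primeFactors, Pv l x) ∧ m0 ∣ D2 x ∧ An m1 x ∧ Nat.Coprime a (D2 x)) with hU
  have hd0 : m0 ∣ n := ⟨m1 * a, by rw [hndef, mul_assoc]⟩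
  have hd1 : m1 ∣ n := ⟨m0 * a, by rw [hndef]; ring⟩
  have hda : a ∣ n := ⟨m0 * m1, by rw [hndef]; ring⟩
  have hmaps : ∀ x ∈ S', red x ∈ U := by
    intro x hx
    rw [hS', mem_filter] at hx
    obtain ⟨hxS, h0, h1, h2⟩ := hx
    have hC := hS x hxS
    rw [hU, mem_filter]
    refine ⟨?_, ?_, ?_, ?_, ?_, ?_⟩
    · unfold cub
      rw [Fintype.mem_piFinset]
      intro i
      rw [mem_Ico]
      exact ⟨Int.emod_nonneg _ hnZ.ne', Int.emod_lt_of_pos _ hnZ⟩
    · rw [← ZMod.intCast_zmod_eq_zero_iff_dvd, ← clg_FX (hcg x), hC.1]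
      simp
    · intro l hl
      have hlp := Nat.prime_of_mem_primeFactors hl
      obtain ⟨i, hi⟩ := hC.2.1 l hlp
      refine ⟨i, fun hc => hi ?_⟩
      have := dvd_add (clg_dvd (Nat.dvd_of_mem_primeFactors hl) (hcg x) i) hc
      rwa [sub_add_cancel] at this
    · exact clg_D2p (clg_dvd hd0 (hcg x)) h0
    · exact clg_An (clg_dvd hd1 (hcg x)) h1
    · exact clg_cop (clg_dvd hda (hcg x)) h2
  rw [← sum_fiberwise_of_maps_to hmaps]
  have hphi : (0 : ℝ) < (Nat.totient n : ℝ) := by exact_mod_cast Nat.totient_pos.2 hn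
  have hq : 0 ≤ B * (M / ((Nat.totient n : ℝ) * (n : ℝ) ^ 8)) := by positivity
  have hfib : ∀ y ∈ U, ∑ x ∈ S'.filter (fun x => red x = y), ∏ l ∈ a.primeFactors, psx x l ≤
      (B * (M / ((Nat.totient n : ℝ) * (n : ℝ) ^ 8))) *
        ((∏ l ∈ a.primeFactors, psx y l) * (s1 (gx n j y) : ℝ)) := by
    intro y hy
    have hp : 0 ≤ ∏ l ∈ a.primeFactors, psx y l := prod_nonneg fun l _ => clg_psx0 y l
    have hcard := hcnt n y hn hnW hnT' (S'.filter (fun x => red x = y))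
      ((filter_subset _ _).trans (filter_subset _ _)) (by
        intro x hx
        rw [mem_filter] at hx
        rw [← hx.2]
        exact hcg x)
    have hsum : ∑ x ∈ S'.filter (fun x => red x = y), ∏ l ∈ a.primeFactors, psx x l =
        ((S'.filter (fun x => red x = y)).card : ℝ) * ∏ l ∈ a.primeFactors, psx y l := by
      rw [← nsmul_eq_mul, ← sum_const]
      refine sum_congr rfl fun x hx => prod_congr rfl fun l hl => ?_
      rw [mem_filter] at hx
      refine clg_psx ?_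
      rw [← hx.2]
      exact clg_dvd ((Nat.dvd_of_mem_primeFactors hl).trans hda) (hcg x)
    rw [hsum]
    calc _ ≤ (B * (M / ((Nat.totient n : ℝ) * (n : ℝ) ^ 8)) * (s1 (gx n j y) : ℝ)) *
          ∏ l ∈ a.primeFactors, psx y l := mul_le_mul_of_nonneg_right hcard hp
      _ = _ := by ring
  refine (sum_le_sum hfib).trans ?_
  rw [← mul_sum]
  have hff := hf m0 m1 a j hm0sq hm1ne ha hm01 hc0 hc1
  rw [← hndef, ← hU] at hff
  refine (mul_le_mul_of_nonneg_left hff hq).trans ?_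
  have hE : B * (M / ((Nat.totient n : ℝ) * (n : ℝ) ^ 8)) *
      ((n : ℝ) ^ 9 * (r0 Cf m0 * r1 Cf m1 * ra Cf a)) =
      B * M * ((gn m0 * r0 Cf m0) * (gn m1 * r1 Cf m1) * (gn a * ra Cf a)) := by
    have h1 := clg_phi n (by omega)
    have h2 : (n : ℝ) = (Nat.totient n : ℝ) * (gn m0 * gn m1 * gn a) := by
      rw [← hgmul]
      exact h1
    have h3 : (n : ℝ) ^ 9 = (n : ℝ) ^ 8 * ((Nat.totient n : ℝ) * (gn m0 * gn m1 * gn a)) := by
      rw [← h2]
      ring
    rw [h3]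
    have hn0 : (n : ℝ) ≠ 0 := by exact_mod_cast (by omega : n ≠ 0)
    have hφ0 : (Nat.totient n : ℝ) ≠ 0 := by
      exact_mod_cast (Nat.totient_pos.2 (by omega : 0 < n)).ne'
    exact clg_alg _ _ _ _ _ _ _ _ _ _ hφ0 hn0
  rw [hE]
  have g0 := clg_r0n hCf0 m0
  have g1 := clg_r1n hCf0 m1
  have ga := clg_ran hCf0 a
  have q0 := clg_gn0 m0
  have q1 := clg_gn0 m1
  have qa := clg_gn0 a
  have k0 := (clg_g0 hCf m0).trans (clg_r0 (by linarith) hK2 m0)
  have k1 := (clg_g1 hCf m1).trans (clg_r1 (by linarith) hK2 m1)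
  have ka := (clg_ga hCf a).trans (clg_ra (by linarith) hK2 a)
  have j0 := clg_r0n hK0 m0
  have j1 := clg_r1n hK0 m1
  have hle := mul_le_mul (mul_le_mul k0 k1 (mul_nonneg q1 g1) j0) ka (mul_nonneg qa ga) (mul_nonneg j0 j1)
  exact mul_le_mul (mul_le_mul_of_nonneg_right hKB hM) hle
    (mul_nonneg (mul_nonneg (mul_nonneg q0 g0) (mul_nonneg q1 g1)) (mul_nonneg qa ga))
    (mul_nonneg hK0 hM)

end Pool.Agent.PP5LH
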