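import Pool.Agent.PP5C.Cc

/-!
# PP5LH/ClA: abstract families (relative version of section (c2))

`ClA T δ1 C0 M X`: the sums over the family `X`, of mass `M`, with congruence conditions of level `T ^ δ1`.
-/

set_option autoImplicit false

namespace Pool.Agent.PP5LH

open Finset Pool.Agent.PPS Pool.Agent.PP5C

open Classical in
/-- the bound for the sums over the family `X` of mass `M` (same shape as `PP5C.ClP`) -/
def ClA (T δ1 C0 M : ℝ) (X : Finset (Fin 10 → ℤ)) : Prop :=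
  ∀ n0 n1 a : ℕ, Squarefree n0 → n1 ≠ 0 → Squarefree a → Nat.Coprime n0 n1 →
    ((n0 * n1 * a : ℕ) : ℝ) ≤ T ^ δ1 →
    ∑ x ∈ X.filter (fun x => n0 ∣ D2 x ∧ An n1 x ∧ Nat.Coprime a (D2 x)),
      ∏ l ∈ a.primeFactors, psx x l ≤ C0 * M * (r0 C0 n0 * r1 C0 n1 * ra C0 a)

theorem ClA.mono {T δ1 C0 M : ℝ} {X S : Finset (Fin 10 → ℤ)} (h : ClA T δ1 C0 M X) (hS : S ⊆ X) :
    ClA T δ1 C0 M S := by
  classical
  intro n0 n1 a h1 h2 h3 h4 h5
  have h6 := h n0 n1 a h1 h2 h3 h4 h5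
  refine le_trans ?_ h6
  have h7 : ∀ x : Fin 10 → ℤ, 0 ≤ ∏ l ∈ a.primeFactors, psx x l := fun x =>
    Finset.prod_nonneg fun l _ => by unfold psx; split_ifs <;> norm_num
  exact Finset.sum_le_sum_of_subset_of_nonneg (Finset.filter_subset_filter _ hS) fun x _ _ => h7 x

/-- smaller level, larger constant and mass -/
theorem ClA.level {T δ1 δ2 C0 M : ℝ} {X : Finset (Fin 10 → ℤ)} (h : ClA T δ1 C0 M X) (hT : 1 ≤ T)
    (hδ : δ2 ≤ δ1) : ClA T δ2 C0 M X := by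
  intro n0 n1 a h1 h2 h3 h4 h5
  exact h n0 n1 a h1 h2 h3 h4 (h5.trans (Real.rpow_le_rpow_of_exponent_le hT hδ))

/-- the number of elements of the family -/
theorem ClA.card {T δ1 C0 M : ℝ} {X : Finset (Fin 10 → ℤ)} (h : ClA T δ1 C0 M X) (hT : 1 ≤ T)
    (hδ : 0 ≤ δ1) : (X.card : ℝ) ≤ C0 * M := by
  classical
  have h1 : ((1 * 1 * 1 : ℕ) : ℝ) ≤ T ^ δ1 := by
    have := Real.one_le_rpow (x := T) (z := δ1) hT hδ
    simpa using this
  have h := h 1 1 1 squarefree_one one_ne_zero squarefree_one (Nat.coprime_one_left 1) h1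
  have e1 : X.filter (fun x => 1 ∣ D2 x ∧ An 1 x ∧ Nat.Coprime 1 (D2 x)) = X := by
    apply Finset.filter_true_of_mem
    intro x _
    refine ⟨one_dvd _, ?_, Nat.coprime_one_left _⟩
    intro i j
    simp
  rw [e1] at h
  simpa [r0, r1, ra] using h

end Pool.Agent.PP5LH
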