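import Pool.Agent.PP5LH.ClA

/-!
# PP5LH/TlW: few `x` of an abstract family have a large content (relative version of `PP5C.tlx`)
-/

set_option autoImplicit false

namespace Pool.Agent.PP5LH

open Finset Pool.Agent.PPS Pool.Agent.PP5C

private theorem tlw_div (V : ℕ) (hV : V ≠ 0) (Y z : ℝ) (hY : 1 ≤ Y) (hVY : Y < (V : ℝ))
    (hz : ∀ l : ℕ, l.Prime → l ∣ V → (l : ℝ) ≤ z) :
    ∃ n : ℕ, n ∣ V ∧ Y < (n : ℝ) ∧ (n : ℝ) ≤ Y * z := by
  classical
  have hex : ∃ n : ℕ, n ∣ V ∧ Y < (n : ℝ) := ⟨V, dvd_rfl, hVY⟩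
  obtain ⟨hn1, hn2⟩ := Nat.find_spec hex
  set n := Nat.find hex with hn
  refine ⟨n, hn1, hn2, ?_⟩
  have hn1' : n ≠ 1 := by
    intro h
    rw [h] at hn2
    norm_num at hn2
    linarith
  obtain ⟨l, hl, hln⟩ := Nat.exists_prime_and_dvd hn1'
  obtain ⟨k, hk⟩ := hln
  have hn0 : n ≠ 0 := fun h => hV (by rw [h] at hn1; exact Nat.eq_zero_of_zero_dvd hn1)
  have hk0 : 0 < k := Nat.pos_of_ne_zero (by rintro rfl; exact hn0 (by rw [hk, mul_zero]))
  have hkn : k < n := by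
    rw [hk]
    nlinarith [hl.two_le]
  have hkY : (k : ℝ) ≤ Y := by
    by_contra hcon
    push Not at hcon
    exact Nat.find_min hex hkn ⟨(Dvd.intro_left l hk.symm).trans hn1, hcon⟩
  have hlz := hz l hl ((Dvd.intro k hk.symm).trans hn1)
  have hnr : (n : ℝ) = l * k := by exact_mod_cast hk
  rw [hnr]
  have h1 : (0 : ℝ) ≤ k := Nat.cast_nonneg k
  have h2 : (0 : ℝ) ≤ l := Nat.cast_nonneg l
  nlinarith

private theorem tlw_V (x : Fin 10 → ℤ) (z : ℝ) : VV z (D2 x) (vx x) ∣ ctx x ∧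
    VV z (D2 x) (vx x) ≠ 0 ∧
    ∀ l : ℕ, l.Prime → l ∣ VV z (D2 x) (vx x) → (l : ℝ) ≤ z := by
  classical
  have hP : ∀ l ∈ Pz z (D2 x), l.Prime ∧ (l : ℝ) ≤ z := by
    intro l hl
    rw [Pz, mem_filter] at hl
    exact ⟨Nat.prime_of_mem_primeFactors hl.1, hl.2⟩
  refine ⟨?_, ?_, ?_⟩
  · unfold VV
    apply Finset.prod_dvd_of_isRelPrime
    · intro i hi j hj hij
      rw [Function.onFun, ← Nat.coprime_iff_isRelPrime]
      exact Nat.Coprime.pow _ _ ((Nat.coprime_primes (hP i hi).1 (hP j hj).1).mpr hij)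
    · intro i _
      exact Nat.ordProj_dvd _ _
  · unfold VV
    rw [Finset.prod_ne_zero_iff]
    intro l hl
    exact pow_ne_zero _ (hP l hl).1.ne_zero
  · intro l hl hd
    unfold VV at hd
    obtain ⟨p, hp, hlp⟩ := (Prime.dvd_finsetProd_iff hl.prime _).mp hd
    have : l = p := (Nat.prime_dvd_prime_iff_eq hl (hP p hp).1).mp (hl.dvd_of_dvd_pow hlp)
    rw [this]
    exact (hP p hp).2

private theorem tlw_An (x : Fin 10 → ℤ) (n : ℕ) (h : n ∣ ctx x) : An n x := by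
  intro i j
  have h1 : ctx x ∣ (8 * (SX x).adjugate i j).natAbs := by
    unfold ctx
    generalize (SX x).adjugate = B
    exact Finset.gcd_dvd (f := fun p : Fin 4 × Fin 4 => (8 * B p.1 p.2).natAbs)
      (mem_univ ((i, j) : Fin 4 × Fin 4))
  exact Int.natCast_dvd.mpr (h.trans h1)

theorem tlw {δ1 C0 : ℝ} (hC0 : 1 ≤ C0)
    (c2 c5 : ℝ) (hc2 : 0 < c2) (hc5 : 0 < c5) (h25 : c2 + c5 ≤ δ1) :
    ∃ T0 : ℝ, 2 ≤ T0 ∧ ∀ T : ℝ, T0 ≤ T → ∀ (M : ℝ) (S : Finset (Fin 10 → ℤ)), 0 ≤ M →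
    ClA T δ1 C0 M S → (∀ x ∈ S, T ^ c5 < (VV (T ^ c2) (D2 x) (vx x) : ℝ)) →
    (S.card : ℝ) ≤ M * T ^ (-(c5 / 10)) := by
  classical
  obtain ⟨C, hC1, -, -, hC3, -⟩ := srx C0 0 hC0 le_rfl
  refine ⟨max 2 ((C0 * C) ^ (40 / c5)), le_max_left _ _, ?_⟩
  intro T hT M S hM hcl hS
  have hT2 : 2 ≤ T := (le_max_left _ _).trans hT
  have hTC : (C0 * C) ^ (40 / c5) ≤ T := (le_max_right _ _).trans hT
  have hT0 : 0 < T := by linarith
  have hTle : 1 ≤ T := by linarith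
  have hY1 : 1 ≤ T ^ c5 := Real.one_le_rpow hTle hc5.le
  set N : ℕ := ⌊T ^ δ1⌋₊ with hN
  -- the divisors
  have hdiv : ∀ x ∈ S, ∃ n ∈ (Icc 1 N).filter (fun n : ℕ => T ^ c5 < (n : ℝ)), An n x := by
    intro x hx
    obtain ⟨hV1, hV2, hV3⟩ := tlw_V x (T ^ c2)
    obtain ⟨n, hnV, hn1, hn2⟩ := tlw_div _ hV2 (T ^ c5) (T ^ c2) hY1 (hS x hx) hV3
    refine ⟨n, ?_, tlw_An x n (hnV.trans hV1)⟩
    rw [mem_filter, mem_Icc]
    have hnpos : 1 ≤ n := by
      rcases Nat.eq_zero_or_pos n with h | h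
      · rw [h] at hn1
        norm_num at hn1
        linarith
      · exact h
    refine ⟨⟨hnpos, ?_⟩, hn1⟩
    rw [hN, Nat.le_floor_iff (by positivity)]
    refine hn2.trans ?_
    rw [← Real.rpow_add hT0]
    exact Real.rpow_le_rpow_of_exponent_le hTle (by linarith)
  have hsub : S ⊆ ((Icc 1 N).filter (fun n : ℕ => T ^ c5 < (n : ℝ))).biUnion
      (fun n => S.filter (fun x => 1 ∣ D2 x ∧ An n x ∧ Nat.Coprime 1 (D2 x))) := by
    intro x hx
    obtain ⟨n, hn, hA⟩ := hdiv x hx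
    rw [mem_biUnion]
    exact ⟨n, hn, mem_filter.mpr ⟨hx, one_dvd _, hA, Nat.coprime_one_left _⟩⟩
  have hcard : (S.card : ℝ) ≤ ∑ n ∈ (Icc 1 N).filter (fun n : ℕ => T ^ c5 < (n : ℝ)),
      ((S.filter (fun x => 1 ∣ D2 x ∧ An n x ∧ Nat.Coprime 1 (D2 x))).card : ℝ) := by
    have h1 := (card_le_card hsub).trans card_biUnion_le
    exact_mod_cast h1
  have heach : ∀ n ∈ (Icc 1 N).filter (fun n : ℕ => T ^ c5 < (n : ℝ)),
      ((S.filter (fun x => 1 ∣ D2 x ∧ An n x ∧ Nat.Coprime 1 (D2 x))).card : ℝ) ≤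
        C0 * M * r1 C0 n := by
    intro n hn
    rw [mem_filter, mem_Icc] at hn
    have hnT : (n : ℝ) ≤ T ^ δ1 := by
      have := hn.1.2
      rw [hN, Nat.le_floor_iff (by positivity)] at this
      exact this
    have h := hcl 1 n 1 squarefree_one (by omega) squarefree_one
      (Nat.coprime_one_left _) (by simpa using hnT)
    have hr0 : r0 C0 1 = 1 := by simp [r0]
    have hra : ra C0 1 = 1 := by simp [ra]
    rw [hr0, hra] at h
    simp only [Nat.primeFactors_one, prod_empty, sum_const, nsmul_eq_mul, mul_one, one_mul] at h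
    convert h using 3
  have hsum := hC3 N (T ^ c5) hY1
  have htot : (S.card : ℝ) ≤ C0 * M * (C * (T ^ c5) ^ (-(1 / 8) : ℝ)) := by
    refine hcard.trans ((sum_le_sum heach).trans ?_)
    rw [← mul_sum]
    exact mul_le_mul_of_nonneg_left hsum (by positivity)
  refine htot.trans ?_
  have h1 : (T ^ c5) ^ (-(1 / 8) : ℝ) = T ^ (-(c5 / 10)) * T ^ (-(c5 / 40)) := by
    rw [← Real.rpow_mul hT0.le, ← Real.rpow_add hT0]
    congr 1
    ring
  have hCC : 0 < C0 * C := by positivity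
  have h2 : C0 * C ≤ T ^ (c5 / 40) := by
    have h3 : ((C0 * C) ^ (40 / c5)) ^ (c5 / 40) ≤ T ^ (c5 / 40) :=
      Real.rpow_le_rpow (by positivity) hTC (by positivity)
    rw [← Real.rpow_mul hCC.le] at h3
    have h4 : 40 / c5 * (c5 / 40) = 1 := by field_simp
    rwa [h4, Real.rpow_one] at h3
  have h3 : C0 * C * T ^ (-(c5 / 40)) ≤ 1 := by
    calc C0 * C * T ^ (-(c5 / 40)) ≤ T ^ (c5 / 40) * T ^ (-(c5 / 40)) :=
          mul_le_mul_of_nonneg_right h2 (by positivity)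
      _ = 1 := by rw [← Real.rpow_add hT0]; simp
  rw [h1]
  have h5 : 0 ≤ M * T ^ (-(c5 / 10)) := by positivity
  calc C0 * M * (C * (T ^ (-(c5 / 10)) * T ^ (-(c5 / 40))))
      = (M * T ^ (-(c5 / 10))) * (C0 * C * T ^ (-(c5 / 40))) := by ring
    _ ≤ (M * T ^ (-(c5 / 10))) * 1 := mul_le_mul_of_nonneg_left h3 h5
    _ = _ := mul_one _

end Pool.Agent.PP5LH
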